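import Mathlib
import Pool.Agent.Helper868.LFS8

set_option autoImplicit false

namespace Pool.Agent.Y56.LF

open Finset Function Group H868.LFS

set_option linter.unusedSectionVars false
set_option linter.style.haveILetI false

/-- every finite simple nonabelian subgroup of `P` embeds in `H` -/
def SimpLe (P H : Type) [Group P] [Group H] : Prop :=
  ∀ (T : Type) [Group T] [Finite T] [IsSimpleGroup T] (f : T →* P), Injective f →
    (∀ a b : T, a * b = b * a) ∨ ∃ f' : T →* H, Injective f'

theorem next_gen (H : Type) [Group H] [Finite H] [IsPerfect H] :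
    ∃ (P : Type) (_ : Group P) (_ : Finite P) (_ : IsPerfect P) (j : H →* P),
      SimpLe P H ∧ Injective j ∧ Nat.card H < Nat.card P ∧
      ∀ h : H, h ≠ 1 → Subgroup.normalClosure {j h} = ⊤ := by
  obtain ⟨E, _, _, _, _, ι, hι, hcard⟩ := alt_embed H
  obtain ⟨E', _, _, ι', π, hup, hT⟩ := main_ext ι hι
  obtain ⟨m, hm⟩ := exists_core E'
  let P := derivedSeries E' m
  haveI : IsPerfect P := hm
  obtain ⟨hcomp, hsurj, hsolv⟩ := hup
  haveI := hsolv
  have hmem : ∀ h : H, ι' h ∈ P := by
    intro h
    have h1 := map_derivedSeries_le_derivedSeries ι' m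
    rw [IsPerfect.derivedSeries_eq_top H] at h1
    exact h1 ⟨h, trivial, rfl⟩
  let j : H →* P := ι'.codRestrict P hmem
  let πP : P →* E := π.comp P.subtype
  have hπP : Surjective πP := by
    intro e
    have h1 := map_derivedSeries_eq hsurj m
    rw [IsPerfect.derivedSeries_eq_top E] at h1
    have : e ∈ (derivedSeries E' m).map π := by rw [h1]; trivial
    obtain ⟨x, hx, rfl⟩ := this
    exact ⟨⟨x, hx⟩, rfl⟩
  have hπj : ∀ h : H, πP (j h) = ι h := by
    intro h
    rw [← hcomp]; rfl
  refine ⟨P, inferInstance, inferInstance, inferInstance, j, ?_, ?_, ?_, ?_⟩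
  · -- NoSimp
    intro T _ _ _ f hf
    by_cases hno : ∀ a b : T, a * b = b * a
    · exact Or.inl hno
    right
    let τ : T →* E' := P.subtype.comp f
    have hτ : Injective τ := (Subtype.val_injective).comp hf
    have hinj : Injective (π.comp τ) := by
      rw [← MonoidHom.ker_eq_bot_iff]
      rcases (MonoidHom.normal_ker (π.comp τ)).eq_bot_or_eq_top with h | h
      · exact h
      · exfalso
        apply hno
        rw [IsSimpleGroup.comm_iff_isSolvable]
        let g : T →* π.ker := τ.codRestrict π.ker (fun t => by
          have : t ∈ (π.comp τ).ker := by rw [h]; trivial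
          exact this)
        exact isSolvable_of_isSolvable_injective (f := g) (by
          intro a b hab
          apply hτ
          have h2 : (g a : E') = (g b : E') := by rw [hab]
          exact h2)
    obtain ⟨f', hf'⟩ := hT T τ hinj
    exact ⟨f', hf'⟩
  · intro a b hab
    apply hι
    rw [← hπj, ← hπj, hab]
  · exact lt_of_lt_of_le hcard (Nat.card_le_card_of_surjective πP hπP)
  · intro h hne
    set N := Subgroup.normalClosure {j h} with hN
    haveI : N.Normal := Subgroup.normalClosure_normal
    have hmapN : N.map πP = ⊤ := by
      haveI : (N.map πP).Normal := Subgroup.Normal.map inferInstance πP hπP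
      rcases (inferInstance : (N.map πP).Normal).eq_bot_or_eq_top with h0 | h0
      · exfalso
        apply hne
        apply hι
        rw [map_one, ← hπj]
        have : πP (j h) ∈ N.map πP :=
          ⟨j h, Subgroup.subset_normalClosure (Set.mem_singleton _), rfl⟩
        rw [h0] at this
        exact this
      · exact h0
    -- P / N is solvable
    haveI hKs : Group.IsSolvable πP.ker := by
      let g : πP.ker →* π.ker := (P.subtype.comp πP.ker.subtype).codRestrict π.ker
        (fun x => x.2)
      exact isSolvable_of_isSolvable_injective (f := g) (by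
        intro a b hab
        apply Subtype.ext
        apply Subtype.ext
        have h2 : (g a : E') = (g b : E') := by rw [hab]
        exact h2)
    let q : πP.ker →* P ⧸ N := (QuotientGroup.mk' N).comp πP.ker.subtype
    have hq : Surjective q := by
      intro z
      obtain ⟨x, rfl⟩ := QuotientGroup.mk_surjective z
      have : πP x ∈ N.map πP := by rw [hmapN]; trivial
      obtain ⟨y, hy, hxy⟩ := this
      refine ⟨⟨x * y⁻¹, ?_⟩, ?_⟩
      · rw [MonoidHom.mem_ker, map_mul, map_inv, hxy, mul_inv_cancel]
      · change ((x * y⁻¹ : P) : P ⧸ N) = (x : P ⧸ N)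
        rw [QuotientGroup.eq]
        have : (x * y⁻¹)⁻¹ * x = y := by group
        rw [this]; exact hy
    haveI : Group.IsSolvable (P ⧸ N) := isSolvable_of_surjective hq
    by_contra hne2
    haveI : Nontrivial (P ⧸ N) := by
      rw [← not_subsingleton_iff_nontrivial]
      intro hs
      apply hne2
      exact QuotientGroup.subgroup_eq_top_of_subsingleton N hs
    exact IsPerfect.not_isSolvable (P ⧸ N) inferInstance

end Pool.Agent.Y56.LF
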