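import Pool.Agent.Y56.LF.Next

set_option autoImplicit false

namespace Pool.Agent.Y56.LF

open Finset Function Group H868.LFS

/-- a class of groups (only its finite simple members matter) -/
abbrev Cls : Type 1 := (T : Type) → [Group T] → Prop

/-- every finite nonabelian simple subgroup of `G` is in the class -/
def Ok (C : Cls) (G : Type) [Group G] : Prop :=
  ∀ (T : Type) [Group T] [Finite T] [IsSimpleGroup T] (f : T →* G), Injective f →
    (¬ ∀ a b : T, a * b = b * a) → C T

/-- A stage of the construction. -/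
structure StageC (C : Cls) where
  G : Type
  [grp : Group G]
  [fin : Finite G]
  [perf : IsPerfect G]
  ok : Ok C G

attribute [instance] StageC.grp StageC.fin StageC.perf

theorem perf_prod (A B : Type) [Group A] [Group B] [IsPerfect A] [IsPerfect B] :
    IsPerfect (A × B) := by
  rw [isPerfect_def, eq_top_iff]
  rintro ⟨a, b⟩ -
  have h1 : ∀ a : A, ((a, 1) : A × B) ∈ commutator (A × B) := by
    intro a
    have : a ∈ commutator A := IsPerfect.mem_commutator
    have h2 : (commutator A).map (MonoidHom.inl A B) ≤ commutator (A × B) := by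
      rw [commutator_def, commutator_def, Subgroup.map_commutator]
      exact Subgroup.commutator_mono le_top le_top
    exact h2 ⟨a, this, rfl⟩
  have h3 : ∀ b : B, ((1, b) : A × B) ∈ commutator (A × B) := by
    intro b
    have : b ∈ commutator B := IsPerfect.mem_commutator
    have h2 : (commutator B).map (MonoidHom.inr A B) ≤ commutator (A × B) := by
      rw [commutator_def, commutator_def, Subgroup.map_commutator]
      exact Subgroup.commutator_mono le_top le_top
    exact h2 ⟨b, this, rfl⟩
  have := mul_mem (h1 a) (h3 b)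
  simpa using this

theorem simp_prod {T A B : Type} [Group T] [IsSimpleGroup T] [Group A] [Group B]
    (f : T →* A × B) (hf : Injective f) :
    (∃ g : T →* A, Injective g) ∨ ∃ g : T →* B, Injective g := by
  let f1 : T →* A := (MonoidHom.fst A B).comp f
  let f2 : T →* B := (MonoidHom.snd A B).comp f
  rcases (MonoidHom.normal_ker f1).eq_bot_or_eq_top with h | h
  · left
    exact ⟨f1, (MonoidHom.ker_eq_bot_iff f1).mp h⟩
  · right
    refine ⟨f2, ?_⟩
    intro a b hab
    apply hf
    have ha : f1 a = 1 := by
      have : a ∈ f1.ker := by rw [h]; trivial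
      exact this
    have hb : f1 b = 1 := by
      have : b ∈ f1.ker := by rw [h]; trivial
      exact this
    exact Prod.ext (show f1 a = f1 b by rw [ha, hb]) hab

theorem stage_nextC {C : Cls} (s X : StageC C) : ∃ (t : StageC C) (j : s.G →* t.G)
    (k : X.G →* t.G), Injective j ∧ Injective k ∧ Nat.card s.G < Nat.card t.G ∧
      ∀ h : s.G, h ≠ 1 → Subgroup.normalClosure {j h} = ⊤ := by
  have : IsPerfect (s.G × X.G) := perf_prod s.G X.G
  obtain ⟨P, _, _, _, j, h1, h2, h3, h4⟩ := next_gen (s.G × X.G)
  refine ⟨⟨P, ?_⟩, j.comp (MonoidHom.inl _ _), j.comp (MonoidHom.inr _ _), ?_, ?_, ?_, ?_⟩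
  · intro T _ _ _ f hf hno
    rcases h1 T f hf with h | ⟨f', hf'⟩
    · exact absurd h hno
    · rcases simp_prod f' hf' with ⟨g, hg⟩ | ⟨g, hg⟩
      · exact s.ok T g hg hno
      · exact X.ok T g hg hno
  · intro a b hab
    have := h2 hab
    exact congrArg Prod.fst this
  · intro a b hab
    have := h2 hab
    exact congrArg Prod.snd this
  · refine lt_of_le_of_lt ?_ h3
    exact Nat.card_le_card_of_injective (fun a : s.G => ((a, 1) : s.G × X.G))
      (fun a b hab => congrArg Prod.fst hab)
  · intro h hne
    exact h4 (h, 1) (fun h' => hne (congrArg Prod.fst h'))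

/-- the trivial stage -/
def stage0C (C : Cls) : StageC C where
  G := Unit
  ok := by
    intro T _ _ _ f hf hno
    exact absurd (fun a b => hf (Subsingleton.elim _ _)) hno

/-- codes of finite groups -/
abbrev Code : Type := Σ n : ℕ, (Fin n → Fin n → Fin n)

/-- a group with a given multiplication table -/
def Rel {C : Cls} (c : Code) (X : StageC C) : Prop :=
  ∃ e : X.G ≃ Fin c.1, ∀ a b, e (a * b) = c.2 (e a) (e b)

theorem rel_iso {C : Cls} (c : Code) (X Y : StageC C) (hX : Rel c X) (hY : Rel c Y) :
    Nonempty (X.G ≃* Y.G) := by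
  obtain ⟨e, he⟩ := hX
  obtain ⟨e', he'⟩ := hY
  refine ⟨MulEquiv.mk' (e.trans e'.symm) ?_⟩
  intro a b
  apply e'.injective
  rw [he']
  simp [he]

theorem exists_code {C : Cls} (X : StageC C) : ∃ c : Code, Rel c X := by
  let e := Finite.equivFin X.G
  exact ⟨⟨Nat.card X.G, fun i j => e (e.symm i * e.symm j)⟩, e, fun a b => by simp⟩

theorem exists_enum (C : Cls) : ∃ σ : ℕ → StageC C, ∀ X : StageC C, ∃ n,
    Nonempty (X.G ≃* (σ n).G) := by
  classical
  have : Nonempty Code := ⟨⟨0, fun i => i.elim0⟩⟩
  obtain ⟨φ, hφ⟩ := exists_surjective_nat Code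
  refine ⟨fun k => if h : ∃ X : StageC C, Rel (φ k) X then h.choose else stage0C C, ?_⟩
  intro X
  obtain ⟨c, hc⟩ := exists_code X
  obtain ⟨k, rfl⟩ := hφ c
  refine ⟨k, ?_⟩
  have h : ∃ X : StageC C, Rel (φ k) X := ⟨X, hc⟩
  have key : Rel (φ k) (if h : ∃ X : StageC C, Rel (φ k) X then h.choose else stage0C C) := by
    rw [dif_pos h]
    exact h.choose_spec
  exact rel_iso _ _ _ hc key

noncomputable def tow {C : Cls} (σ : ℕ → StageC C) : ℕ → StageC C
  | 0 => stage0C C
  | n + 1 => (stage_nextC (tow σ n) (σ n)).choose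

section
variable {C : Cls} (σ : ℕ → StageC C)

noncomputable def towMap (n : ℕ) : (tow σ n).G →* (tow σ (n + 1)).G :=
  (stage_nextC (tow σ n) (σ n)).choose_spec.choose

noncomputable def sideMap (n : ℕ) : (σ n).G →* (tow σ (n + 1)).G :=
  (stage_nextC (tow σ n) (σ n)).choose_spec.choose_spec.choose

theorem tow_spec (n : ℕ) : Injective (towMap σ n) ∧ Injective (sideMap σ n) ∧
    Nat.card (tow σ n).G < Nat.card (tow σ (n + 1)).G ∧
    ∀ h : (tow σ n).G, h ≠ 1 → Subgroup.normalClosure {towMap σ n h} = ⊤ :=
  (stage_nextC (tow σ n) (σ n)).choose_spec.choose_spec.choose_spec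

theorem card_tow (n : ℕ) : n < Nat.card (tow σ n).G := by
  induction n with
  | zero => exact Nat.card_pos
  | succ n ih => have := (tow_spec σ n).2.2.1; omega

end

/-- **Main construction.** -/
theorem mainC (C : Cls) : ∃ (G : Type) (_ : Group G), Countable G ∧ Infinite G ∧
    IsSimpleGroup G ∧ (∀ K : Subgroup G, K.FG → Finite K) ∧
    (∀ (X : Type) [Group X] [Finite X] (f : X →* G), Injective f → Ok C X) ∧
    (∀ (X : Type) [Group X] [Finite X] [IsPerfect X], Ok C X → ∃ f : X →* G, Injective f) := by
  obtain ⟨σ, hσ⟩ := exists_enum C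
  obtain ⟨L, _, o, hinj, hcompat, hunion⟩ := exists_limit (towMap σ) (fun n => (tow_spec σ n).1)
  have hmono : ∀ n m, n ≤ m → ∀ x : (tow σ n).G, ∃ y : (tow σ m).G, o n x = o m y := by
    intro n m h
    induction m, h using Nat.le_induction with
    | base => intro x; exact ⟨x, rfl⟩
    | succ m h ih =>
      intro x
      obtain ⟨y, hy⟩ := ih x
      exact ⟨towMap σ m y, by rw [hcompat, hy]⟩
  have hfin : ∀ S : Finset L, ∃ m, ∀ s ∈ S, s ∈ (o m).range := by
    classical
    intro S
    induction S using Finset.induction_on with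
    | empty => exact ⟨0, by simp⟩
    | insert a S ha ih =>
      obtain ⟨m, hm⟩ := ih
      obtain ⟨n, x, hx⟩ := hunion a
      refine ⟨max m n, ?_⟩
      intro s hs
      rw [Finset.mem_insert] at hs
      rcases hs with rfl | hs
      · obtain ⟨y, hy⟩ := hmono n (max m n) (le_max_right _ _) x
        exact ⟨y, by rw [hx, hy]⟩
      · obtain ⟨z, hz⟩ := hm s hs
        obtain ⟨y, hy⟩ := hmono m (max m n) (le_max_left _ _) z
        exact ⟨y, by rw [← hz, hy]⟩
  have hcount : Countable L := by
    have hs : Surjective (fun p : Σ n, (tow σ n).G => o p.1 p.2) := by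
      intro y
      obtain ⟨n, x, hx⟩ := hunion y
      exact ⟨⟨n, x⟩, hx.symm⟩
    have : Countable (Σ n, (tow σ n).G) := inferInstance
    exact hs.countable
  have hinf : Infinite L := by
    by_contra hno
    rw [not_infinite_iff_finite] at hno
    have h1 := Nat.card_le_card_of_injective _ (hinj (Nat.card L))
    exact absurd (card_tow σ (Nat.card L)) (not_lt.2 h1)
  refine ⟨L, inferInstance, hcount, hinf, ?_, ?_, ?_, ?_⟩
  · haveI := hinf
    refine { exists_pair_ne := exists_pair_ne L, eq_bot_or_eq_top_of_normal := ?_ }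
    intro N hN
    by_cases hb : N = ⊥
    · exact Or.inl hb
    right
    obtain ⟨g, hg, hg1⟩ : ∃ g ∈ N, g ≠ 1 := by
      by_contra hno
      push Not at hno
      exact hb ((Subgroup.eq_bot_iff_forall N).2 hno)
    rw [eq_top_iff]
    intro y _
    classical
    obtain ⟨m, hm⟩ := hfin {g, y}
    obtain ⟨x, hx⟩ := hm g (by simp)
    obtain ⟨z, hz⟩ := hm y (by simp)
    have hx1 : x ≠ 1 := by
      rintro rfl
      exact hg1 (by rw [← hx, map_one])
    have hcl := (tow_spec σ m).2.2.2 x hx1
    let N' : Subgroup (tow σ (m + 1)).G := N.comap (o (m + 1))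
    have hN' : N'.Normal := hN.comap _
    have hmem : towMap σ m x ∈ N' := by
      change o (m + 1) (towMap σ m x) ∈ N
      rw [hcompat, hx]; exact hg
    have hle : Subgroup.normalClosure {towMap σ m x} ≤ N' :=
      Subgroup.normalClosure_le_normal (by simpa using hmem)
    rw [hcl] at hle
    have : towMap σ m z ∈ N' := hle trivial
    have h3 : o (m + 1) (towMap σ m z) ∈ N := this
    rw [hcompat, hz] at h3
    exact h3
  · intro K hK
    obtain ⟨S, hS⟩ := hK
    obtain ⟨m, hm⟩ := hfin S
    have hle : K ≤ (o m).range := by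
      rw [← hS, Subgroup.closure_le]
      intro s hs
      exact hm s (by simpa using hs)
    haveI : Finite (o m).range := by
      have : Finite (Set.range (o m)) := Set.finite_range _
      exact this
    exact Finite.of_injective (Subgroup.inclusion hle) (Subgroup.inclusion_injective hle)
  · intro X _ _ φ hφ
    classical
    obtain ⟨m, hm⟩ := hfin (Set.toFinite (Set.range φ)).toFinset
    have hle : ∀ k : X, ∃ x : (tow σ m).G, o m x = φ k := by
      intro k
      obtain ⟨x, hx⟩ := hm (φ k) (by simp)
      exact ⟨x, hx⟩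
    choose f hf using hle
    let ψ : X →* (tow σ m).G :=
      { toFun := f
        map_one' := hinj m (by rw [hf, map_one, map_one])
        map_mul' := fun a b => hinj m (by rw [hf, map_mul, map_mul, hf, hf]) }
    have hψ : Injective ψ := by
      intro a b hab
      apply hφ
      have h2 : f a = f b := hab
      rw [← hf a, ← hf b, h2]
    intro T _ _ _ g hg hno
    exact (tow σ m).ok T (ψ.comp g) (hψ.comp hg) hno
  · intro X _ _ _ hX
    obtain ⟨n, ⟨e⟩⟩ := hσ ⟨X, hX⟩
    refine ⟨(o (n + 1)).comp ((sideMap σ n).comp e.toMonoidHom), ?_⟩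
    exact (hinj (n + 1)).comp ((tow_spec σ n).2.1.comp e.injective)

/-- a finite nonabelian simple group is perfect -/
theorem perfect_of_simple (T : Type) [Group T] [IsSimpleGroup T]
    (hno : ¬ ∀ a b : T, a * b = b * a) : IsPerfect T := by
  rw [isPerfect_def]
  rcases (inferInstance : (commutator T).Normal).eq_bot_or_eq_top with h | h
  · exfalso
    apply hno
    rw [IsSimpleGroup.comm_iff_isSolvable]
    exact ⟨1, by rw [derivedSeries_one]; exact h⟩
  · exact h

end Pool.Agent.Y56.LF
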